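import Pool.Agent.H213.Levi

/-!
# MP_8eabdf_an, question Q2: negative answer

`M = {rho = 0}`, that is `Im w = |z|^8 + 2 u^2 |z|^4 (Re z) + 4 u^4 |z|^2` with `u = Re w`, is a
real-analytic hypersurface in `ℂ × ℂ` for which `0` is an isolated weakly pseudoconvex point
(`IsIsolatedWeaklyPseudoconvex`: the Levi form vanishes at `0` and is positive definite on the
complex tangent line at all other points near `0`). No real-analytic curve `c` in `M` with
`c 0 = 0` and `c' 0 ≠ 0` is a Chern-Moser chain off `0`: for every such `c`, and for every small
`t ≠ 0`, the curve is not a chain near the parameter `t` (`IsChainAt`). So the curve asked for in Q1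
cannot always be chosen smooth.

How the definitions match the problem file.
* `leviForm` is four times the complex Hessian of the defining function, restricted by
  `IsComplexTangent` to the complex tangent line.
* `IsNormalCoordinates M q Φ`: `Φ` is a local biholomorphism at `q`, `Φ q = 0`, and in the
  coordinates `Φ` the set `M` is `Im w = |z|^2 + N (z, Re w)`, with `N` real-analytic and in
  Chern-Moser normal form. In `ℂ × ℂ` the normal form conditions (`N_kl = 0` if `k ≤ 1` or `l ≤ 1`,
  and `N_22 = N_23 = N_32 = N_33 = 0`) say that each pair `(k, l)` that occurs has `k, l ≥ 2` and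
  `max k l ≥ 4`; as `N` is real, this is the same as `N = Re (z^4 (conj z)^2 G (z, u))`.
* `IsChainAt M c t`: in some normal coordinates centred at `c t` the curve lies, for parameters
  near `t`, on the line `z = 0`, `Im w = 0`, which is the chain given by these coordinates.

Proof. The normal form gives an explicit second order equation for chains (`ChainEq`, proved in
`Chain2`); along any curve through `0` the orders of vanishing of its terms are computed in `Fin`,
and one term always dominates, so the equation fails at all small `t ≠ 0`.
-/

open Filter Topology Pool.Agent.H213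

theorem Pool.Agent.Results.MP_8eabdf_an.NoSmoothChainCurve.result :
    IsIsolatedWeaklyPseudoconvex rho 0 ∧
      ∀ c : ℝ → ℂ × ℂ, AnalyticAt ℝ c 0 → c 0 = 0 → deriv c 0 ≠ 0 →
        (∀ᶠ t in 𝓝 (0 : ℝ), rho (c t) = 0) →
        ∀ᶠ t in 𝓝[≠] (0 : ℝ), ¬ IsChainAt {x | rho x = 0} c t :=
  ⟨isolated, fun _ hc h0 hd hM => noChain_curve hc h0 hd hM⟩
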